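import Mathlib
import Pool.Agent.R665.MGR.Alg
import Pool.Agent.E8helper34.MC.Lin

set_option autoImplicit false

/-! The relations between the operators `t - 1`, over commutative rings. -/

namespace Pool.Agent.E8helper34.QA

open Pool.Agent.R665.MGR (HumRel sq_all sq_e far_all farE_all comm0 braid_sub ce)

section lin
variable {K V : Type*} [CommRing K] [AddCommGroup V] [Module K V]

/-- the relations between the operators `t - 1` -/
structure NRel (n : ℕ) (N : ℕ → Module.End K V) (E : Module.End K V) : Prop where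
  sq : ∀ j < n, ∀ v, N j (N j v) = 0
  sqE : ∀ v, E (E v) = 0
  far : ∀ i j, i + 2 ≤ j → j < n → ∀ v, N j (N i v) = 0
  far' : ∀ i j, i + 2 ≤ j → j < n → ∀ v, N i (N j v) = 0
  farE : ∀ j < n, j ≠ 3 → ∀ v, E (N j v) = 0
  farE' : ∀ j < n, j ≠ 3 → ∀ v, N j (E v) = 0
  br : ∀ j, j + 1 < n → ∀ v,
    N j v + N j (N (j + 1) (N j v)) = N (j + 1) v + N (j + 1) (N j (N (j + 1) v))
  brE : ∀ v, N 3 v + N 3 (E (N 3 v)) = E v + E (N 3 (E v))

theorem nrel {G : Type*} [Group G] {n : ℕ} {t : ℕ → G} {e : G} (r : HumRel n t e) (hn : 6 ≤ n)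
    (ρ : G →* Module.End K V) (h0 : (ρ (t 0) - 1) * (ρ (t 0) - 1) = 0)
    (h1 : (ρ e - 1) * (ρ (t 0) - 1) = 0) : NRel n (fun j => ρ (t j) - 1) (ρ e - 1) where
  sq := fun j hj v => LinearMap.congr_fun (sq_all r ρ h0 j hj) v
  sqE := fun v => LinearMap.congr_fun (sq_e r hn ρ h0) v
  far := fun i j h2 hj v => LinearMap.congr_fun (far_all r hn ρ h1 i j h2 hj) v
  far' := fun i j h2 hj v =>
    LinearMap.congr_fun (comm0 ρ (r.far i j h2 hj).symm (far_all r hn ρ h1 i j h2 hj)) v
  farE := fun j hj h3 v =>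
    LinearMap.congr_fun (comm0 ρ (r.farE j hj h3).symm (farE_all r hn ρ h1 j hj h3)) v
  farE' := fun j hj h3 v => LinearMap.congr_fun (farE_all r hn ρ h1 j hj h3) v
  br := fun j hj v => LinearMap.congr_fun (braid_sub ρ (r.braid j hj)
    (sq_all r ρ h0 j (by omega)) (sq_all r ρ h0 (j + 1) hj)) v
  brE := fun v => LinearMap.congr_fun (braid_sub ρ r.braidE
    (sq_all r ρ h0 3 (by omega)) (sq_e r hn ρ h0)) v

variable {n : ℕ} {N : ℕ → Module.End K V} {E : Module.End K V}

/-- the auxiliary sequence -/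
def yy (N : ℕ → Module.End K V) (u : V) : ℕ → V
  | 0 => u
  | j + 1 => - N j (yy N u j)

/-- the basis of the constituent -/
def ww (N : ℕ → Module.End K V) (u : V) (j : ℕ) : V := N j (yy N u j)

theorem ww_succ (u : V) (j : ℕ) : N (j + 1) (ww N u j) = - ww N u (j + 1) := by
  have : ww N u (j + 1) = N (j + 1) (- ww N u j) := rfl
  rw [this, map_neg, neg_neg]

/-- the relations between the vectors `w_j` -/
structure RRel (n : ℕ) (N : ℕ → Module.End K V) (E : Module.End K V) (W1 : Submodule K V)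
    (w : ℕ → V) : Prop where
  up : ∀ j, j + 1 < n → N (j + 1) (w j) + w (j + 1) ∈ W1
  down : ∀ j, j + 1 < n → N j (w (j + 1)) - w j ∈ W1
  far : ∀ i < n, ∀ j < n, i ≠ j + 1 → j ≠ i + 1 → N i (w j) ∈ W1
  E3 : E (w 3) - (w 0 + w 2) ∈ W1
  Efar : ∀ j < n, j ≠ 3 → E (w j) ∈ W1

end lin

section bas
variable {K V : Type*} [CommRing K] [AddCommGroup V] [Module K V]
  {n : ℕ} {N : ℕ → Module.End K V} {E : Module.End K V} {W1 : Submodule K V} {w : ℕ → V}

/-- partial sums of the vectors with even index -/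
def uu (w : ℕ → V) : ℕ → V
  | 0 => w 0
  | i + 1 => uu w i + w (2 * i + 2)

theorem B1 (r : RRel n N E W1 w) {i : ℕ} (hi : 2 * i + 1 < n) (m : ℕ) : 2 * m < n →
    N (2 * i + 1) (uu w m) + (if m = i then (1 : K) else 0) • w (2 * i + 1) ∈ W1 := by
  induction m with
  | zero =>
    intro _
    by_cases h : 0 = i
    · subst h
      rw [if_pos rfl, one_smul]
      exact r.up 0 (by omega)
    · rw [if_neg h, zero_smul, add_zero]
      exact r.far _ hi 0 (by omega) (by omega) (by omega)
  | succ m ih =>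
    intro hm
    have ih := ih (by omega)
    have e : N (2 * i + 1) (uu w (m + 1)) =
        N (2 * i + 1) (uu w m) + N (2 * i + 1) (w (2 * m + 2)) := map_add _ _ _
    rw [e]
    by_cases h : m = i
    · subst h
      rw [if_pos rfl, one_smul] at ih
      rw [if_neg (by omega), zero_smul, add_zero]
      have h2 := W1.add_mem ih (r.down (2 * m + 1) (by omega))
      convert h2 using 1
      abel
    · rw [if_neg h, zero_smul, add_zero] at ih
      by_cases h' : m + 1 = i
      · subst h'
        rw [if_pos rfl, one_smul]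
        have h2 := W1.add_mem ih (r.up (2 * m + 2) (by omega))
        rw [show 2 * m + 2 + 1 = 2 * (m + 1) + 1 by ring] at h2
        convert h2 using 1
        abel
      · rw [if_neg h', zero_smul, add_zero]
        exact W1.add_mem ih (r.far _ hi _ (by omega) (by omega) (by omega))

theorem B2 (r : RRel n N E W1 w) {i : ℕ} (hi : 2 * i < n) (m : ℕ) : 2 * m < n →
    N (2 * i) (uu w m) ∈ W1 := by
  induction m with
  | zero => intro _; exact r.far _ hi 0 (by omega) (by omega) (by omega)
  | succ m ih =>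
    intro hm
    have e : N (2 * i) (uu w (m + 1)) =
        N (2 * i) (uu w m) + N (2 * i) (w (2 * m + 2)) := map_add _ _ _
    rw [e]
    exact W1.add_mem (ih (by omega)) (r.far _ hi _ (by omega) (by omega) (by omega))

theorem B3 (r : RRel n N E W1 w) (m : ℕ) : 2 * m < n → E (uu w m) ∈ W1 := by
  induction m with
  | zero => intro _; exact r.Efar 0 (by omega) (by omega)
  | succ m ih =>
    intro hm
    have e : E (uu w (m + 1)) = E (uu w m) + E (w (2 * m + 2)) := map_add _ _ _
    rw [e]
    exact W1.add_mem (ih (by omega)) (r.Efar _ (by omega) (by omega))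

theorem B5 (r : RRel n N E W1 w) {i m : ℕ} (hi : 2 * i < n) (hm : 2 * m + 1 < n) :
    N (2 * i) (w (2 * m + 1)) - (if m = i then (1 : K) else if m + 1 = i then -1 else 0) •
      w (2 * i) ∈ W1 := by
  by_cases h : m = i
  · subst h
    rw [if_pos rfl, one_smul]
    exact r.down _ hm
  · rw [if_neg h]
    by_cases h' : m + 1 = i
    · subst h'
      rw [if_pos rfl, neg_one_smul, sub_neg_eq_add]
      exact r.up _ (by omega)
    · rw [if_neg h', zero_smul, sub_zero]
      exact r.far _ hi _ hm (by omega) (by omega)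

theorem B6 (r : RRel n N E W1 w) {m : ℕ} (hm : 2 * m + 1 < n) :
    E (w (2 * m + 1)) - (if m = 1 then (1 : K) else 0) • uu w 1 ∈ W1 := by
  by_cases h : m = 1
  · subst h
    rw [if_pos rfl, one_smul]
    exact r.E3
  · rw [if_neg h, zero_smul, sub_zero]
    exact r.Efar _ hm (by omega)

theorem lin_mod {ι : Type*} [Fintype ι] (F : Module.End K V) (u : ι → V) (c s : ι → K) (x : V)
    (h : ∀ i, F (u i) + s i • x ∈ W1) :
    F (∑ i, c i • u i) + (∑ i, c i * s i) • x ∈ W1 := by
  have e : F (∑ i, c i • u i) + (∑ i, c i * s i) • x = ∑ i, c i • (F (u i) + s i • x) := by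
    rw [map_sum, Finset.sum_smul, ← Finset.sum_add_distrib]
    apply Finset.sum_congr rfl
    intro i _
    rw [map_smul, smul_add, smul_smul]
  rw [e]
  exact W1.sum_mem fun i _ => W1.smul_mem _ (h i)

/-- the vectors corresponding to the homology basis -/
def ub (g : ℕ) (w : ℕ → V) : Fin g ⊕ Fin g → V :=
  Sum.elim (fun m => uu w m) (fun m => w (2 * m + 1))

/-- the coefficients of the intersection with `c` -/
def sf (K : Type*) [CommRing K] {g : ℕ} (c : Fin g ⊕ Fin g → ℤ) : Fin g ⊕ Fin g → K :=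
  Sum.elim (fun m => (c (Sum.inr m) : K)) (fun m => -(c (Sum.inl m) : K))

/-- `F = t - 1` acts modulo `W1` like the transvection with class `c` -/
structure GenRel {g : ℕ} (W1 : Submodule K V) (u : Fin g ⊕ Fin g → V) (F : Module.End K V)
    (x : V) (c : Fin g ⊕ Fin g → ℤ) : Prop where
  rel : ∀ k, F (u k) + sf K c k • x ∈ W1
  val : x = ∑ k, (c k : K) • u k

variable {g : ℕ}

theorem gen_odd (r : RRel (2 * g) N E W1 w) (i : Fin g) :
    GenRel W1 (ub g w) (N (2 * i + 1)) (w (2 * i + 1)) (Pi.single (Sum.inr i) 1) := by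
  refine ⟨?_, ?_⟩
  · rintro (m | m)
    · have h := B1 r (i := (i : ℕ)) (by omega) (m : ℕ) (by omega)
      have e : sf K (Pi.single (Sum.inr i) 1 : Fin g ⊕ Fin g → ℤ) (Sum.inl m) =
          if (m : ℕ) = i then (1 : K) else 0 := by
        unfold sf
        simp only [Sum.elim_inl]
        by_cases hm : m = i
        · subst hm; simp
        · rw [if_neg (fun e => hm (Fin.ext e))]
          simp [hm]
      rw [e]
      exact h
    · have e : sf K (Pi.single (Sum.inr i) 1 : Fin g ⊕ Fin g → ℤ) (Sum.inr m) = 0 := by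
        unfold sf
        simp
      rw [e, zero_smul, add_zero]
      exact r.far _ (by omega) _ (by omega) (by omega) (by omega)
  · rw [Finset.sum_eq_single (Sum.inr i)]
    · simp [ub]
    · intro b _ hb
      rw [Pi.single_eq_of_ne hb]
      simp
    · intro h; exact absurd (Finset.mem_univ _) h

theorem gen_even (r : RRel (2 * g) N E W1 w) (i : Fin g) :
    GenRel W1 (ub g w) (N (2 * i)) (w (2 * i)) (ce i) := by
  refine ⟨?_, ?_⟩
  · rintro (m | m)
    · have e : sf K (ce i) (Sum.inl m) = 0 := by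
        unfold sf ce
        simp
      rw [e, zero_smul, add_zero]
      exact B2 r (by omega) _ (by omega)
    · have h := B5 r (i := (i : ℕ)) (m := (m : ℕ)) (by omega) (by omega)
      have e : sf K (ce i) (Sum.inr m) =
          -(if (m : ℕ) = i then (1 : K) else if (m : ℕ) + 1 = i then -1 else 0) := by
        unfold sf ce
        simp only [Sum.elim_inr, Sum.elim_inl]
        by_cases hm : m = i
        · subst hm; simp
        · rw [if_neg hm, if_neg (fun e => hm (Fin.ext e))]
          split_ifs <;> simp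
      rw [e, neg_smul, ← sub_eq_add_neg]
      exact h
  · rw [Fintype.sum_sum_type]
    have e2 : ∑ m : Fin g, ((ce i (Sum.inr m) : ℤ) : K) • ub g w (Sum.inr m) = 0 := by
      apply Finset.sum_eq_zero
      intro m _
      simp [ce]
    rw [e2, add_zero]
    rcases Nat.eq_zero_or_pos (i : ℕ) with h | h
    · rw [Finset.sum_eq_single i]
      · simp [ce, ub, h, uu]
      · intro b _ hb
        have : ¬ (b : ℕ) + 1 = i := by omega
        simp [ce, hb, this]
      · intro h; exact absurd (Finset.mem_univ _) h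
    · obtain ⟨k, hk⟩ : ∃ k, (i : ℕ) = k + 1 := ⟨i - 1, by omega⟩
      have hkg : k < g := by omega
      have hne : (⟨k, hkg⟩ : Fin g) ≠ i := fun e => by
        have := congrArg Fin.val e
        simp at this
        omega
      have hsub : ∑ m : Fin g, ((ce i (Sum.inl m) : ℤ) : K) • ub g w (Sum.inl m) =
          ∑ m ∈ ({i, ⟨k, hkg⟩} : Finset (Fin g)),
            ((ce i (Sum.inl m) : ℤ) : K) • ub g w (Sum.inl m) := by
        symm
        apply Finset.sum_subset (Finset.subset_univ _)
        intro m _ hm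
        simp only [Finset.mem_insert, Finset.mem_singleton, not_or] at hm
        have h1 : ¬ (m : ℕ) + 1 = i := fun e => hm.2 (Fin.ext (by simp; omega))
        simp [ce, hm.1, h1]
      rw [hsub, Finset.sum_pair hne.symm]
      have e3 : ub g w (Sum.inl i) = ub g w (Sum.inl ⟨k, hkg⟩) + w (2 * k + 2) := by
        show uu w i = uu w k + w (2 * k + 2)
        rw [hk]
        rfl
      have e4 : ((ce i (Sum.inl i) : ℤ) : K) = 1 := by simp [ce]
      have e5 : ((ce i (Sum.inl ⟨k, hkg⟩) : ℤ) : K) = -1 := by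
        simp [ce, hne, hk]
      rw [e3, e4, e5, hk, show 2 * (k + 1) = 2 * k + 2 by ring]
      module

theorem gen_e (r : RRel (2 * g) N E W1 w) (i : Fin g) (hi : (i : ℕ) = 1) :
    GenRel W1 (ub g w) E (uu w 1) (Pi.single (Sum.inl i) 1) := by
  refine ⟨?_, ?_⟩
  · rintro (m | m)
    · have e : sf K (Pi.single (Sum.inl i) 1 : Fin g ⊕ Fin g → ℤ) (Sum.inl m) = 0 := by
        unfold sf
        simp
      rw [e, zero_smul, add_zero]
      exact B3 r _ (by omega)
    · have h := B6 r (m := (m : ℕ)) (by omega)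
      have e : sf K (Pi.single (Sum.inl i) 1 : Fin g ⊕ Fin g → ℤ) (Sum.inr m) =
          -(if (m : ℕ) = 1 then (1 : K) else 0) := by
        unfold sf
        simp only [Sum.elim_inr]
        by_cases hm : m = i
        · subst hm; simp [hi]
        · rw [if_neg (fun e => hm (Fin.ext (e.trans hi.symm)))]
          simp [hm]
      rw [e, neg_smul, ← sub_eq_add_neg]
      exact h
  · rw [Finset.sum_eq_single (Sum.inl i)]
    · simp [ub, hi]
    · intro b _ hb
      rw [Pi.single_eq_of_ne hb]
      simp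
    · intro h; exact absurd (Finset.mem_univ _) h

end bas

section tor
variable {K V : Type*} [CommRing K] [AddCommGroup V] [Module K V]
  {n : ℕ} {N : ℕ → Module.End K V} {E : Module.End K V}

/-- the invariant vectors -/
def Vinv (n : ℕ) (N : ℕ → Module.End K V) (E : Module.End K V) : Submodule K V where
  carrier := {v | (∀ j < n, N j v = 0) ∧ E v = 0}
  zero_mem' := ⟨fun j _ => map_zero _, map_zero _⟩
  add_mem' := by
    rintro a b ⟨a1, a2⟩ ⟨b1, b2⟩
    exact ⟨fun j hj => by rw [map_add, a1 j hj, b1 j hj, add_zero], by rw [map_add, a2, b2, add_zero]⟩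
  smul_mem' := by
    rintro c a ⟨a1, a2⟩
    exact ⟨fun j hj => by rw [map_smul, a1 j hj, smul_zero], by rw [map_smul, a2, smul_zero]⟩

theorem mem_Vinv {v : V} : v ∈ Vinv n N E ↔ (∀ j < n, N j v = 0) ∧ E v = 0 := Iff.rfl

/-- the span of the images -/
def Vim (n : ℕ) (N : ℕ → Module.End K V) (E : Module.End K V) : Submodule K V :=
  Submodule.span K {v | ∃ u, (∃ j < n, v = N j u) ∨ v = E u}

theorem N_mem_Vim {j : ℕ} (hj : j < n) (u : V) : N j u ∈ Vim n N E :=
  Submodule.subset_span ⟨u, Or.inl ⟨j, hj, rfl⟩⟩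

theorem E_mem_Vim (u : V) : E u ∈ Vim n N E := Submodule.subset_span ⟨u, Or.inr rfl⟩

theorem X_inv (r : NRel n N E) (hn : 6 ≤ n) {j : ℕ} (hj : j + 1 < n) (v : V) :
    N j v + N j (N (j + 1) (N j v)) ∈ Vinv n N E := by
  rw [mem_Vinv]
  refine ⟨?_, ?_⟩
  · intro i hi
    rcases lt_trichotomy i j with h1 | h1 | h1
    · rcases Nat.lt_or_ge (i + 1) j with h2 | h2
      · rw [map_add, r.far' i j (by omega) (by omega), r.far' i j (by omega) (by omega), add_zero]
      · rw [r.br j hj, map_add, r.far' i (j + 1) (by omega) (by omega),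
          r.far' i (j + 1) (by omega) (by omega), add_zero]
    · subst h1
      rw [map_add, r.sq _ hi, r.sq _ hi, add_zero]
    · rcases Nat.lt_or_ge (j + 1) i with h2 | h2
      · rw [map_add, r.far j i (by omega) hi, r.far j i (by omega) hi, add_zero]
      · obtain rfl : i = j + 1 := by omega
        rw [r.br j hj, map_add, r.sq _ hi, r.sq _ hi, add_zero]
  · by_cases h3 : j = 3
    · rw [r.br j hj, map_add, r.farE (j + 1) hj (by omega), r.farE (j + 1) hj (by omega),
        add_zero]
    · rw [map_add, r.farE j (by omega) h3, r.farE j (by omega) h3, add_zero]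

theorem XE_inv (r : NRel n N E) (hn : 6 ≤ n) (v : V) :
    N 3 v + N 3 (E (N 3 v)) ∈ Vinv n N E := by
  rw [mem_Vinv]
  refine ⟨?_, ?_⟩
  · intro i hi
    by_cases h3 : i = 3
    · subst h3
      rw [map_add, r.sq _ hi, r.sq _ hi, add_zero]
    · rw [r.brE, map_add, r.farE' i hi h3, r.farE' i hi h3, add_zero]
  · rw [r.brE, map_add, r.sqE, r.sqE, add_zero]

theorem X_kill (r : NRel n N E) (hn : 6 ≤ n) {j : ℕ} (hj : j + 1 < n) {v : V}
    (hv : v ∈ Vim n N E) : N j v + N j (N (j + 1) (N j v)) = 0 := by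
  induction hv using Submodule.span_induction with
  | mem v hv =>
    obtain ⟨u, ⟨k, hk, rfl⟩ | rfl⟩ := hv
    · rcases lt_trichotomy k j with h1 | h1 | h1
      · rcases Nat.lt_or_ge (k + 1) j with h2 | h2
        · rw [r.far k j (by omega) (by omega), map_zero, map_zero, add_zero]
        · rw [r.br j hj, r.far k (j + 1) (by omega) (by omega), map_zero, map_zero, add_zero]
      · subst h1
        rw [r.sq _ hk, map_zero, map_zero, add_zero]
      · rcases Nat.lt_or_ge (j + 1) k with h2 | h2
        · rw [r.far' j k (by omega) hk, map_zero, map_zero, add_zero]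
        · obtain rfl : k = j + 1 := by omega
          rw [r.br j hj, r.sq _ hk, map_zero, map_zero, add_zero]
    · by_cases h3 : j = 3
      · rw [r.br j hj, r.farE' (j + 1) hj (by omega), map_zero, map_zero, add_zero]
      · rw [r.farE' j (by omega) h3, map_zero, map_zero, add_zero]
  | zero => simp
  | add x y _ _ hx hy =>
    have e : N j (x + y) + N j (N (j + 1) (N j (x + y))) =
        (N j x + N j (N (j + 1) (N j x))) + (N j y + N j (N (j + 1) (N j y))) := by
      simp only [map_add]
      abel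
    rw [e, hx, hy, add_zero]
  | smul a x _ hx =>
    have e : N j (a • x) + N j (N (j + 1) (N j (a • x))) =
        a • (N j x + N j (N (j + 1) (N j x))) := by
      simp only [map_smul, smul_add]
    rw [e, hx, smul_zero]

theorem XE_kill (r : NRel n N E) (hn : 6 ≤ n) {v : V}
    (hv : v ∈ Vim n N E) : N 3 v + N 3 (E (N 3 v)) = 0 := by
  induction hv using Submodule.span_induction with
  | mem v hv =>
    obtain ⟨u, ⟨k, hk, rfl⟩ | rfl⟩ := hv
    · by_cases h3 : k = 3
      · subst h3
        rw [r.sq _ hk, map_zero, map_zero, add_zero]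
      · rw [r.brE, r.farE k hk h3, map_zero, map_zero, add_zero]
    · rw [r.brE, r.sqE, map_zero, map_zero, add_zero]
  | zero => simp
  | add x y _ _ hx hy =>
    have e : N 3 (x + y) + N 3 (E (N 3 (x + y))) =
        (N 3 x + N 3 (E (N 3 x))) + (N 3 y + N 3 (E (N 3 y))) := by
      simp only [map_add]
      abel
    rw [e, hx, hy, add_zero]
  | smul a x _ hx =>
    have e : N 3 (a • x) + N 3 (E (N 3 (a • x))) = a • (N 3 x + N 3 (E (N 3 x))) := by
      simp only [map_smul, smul_add]
    rw [e, hx, smul_zero]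

theorem rrel (r : NRel n N E) (hn : 6 ≤ n) {y : V} (hy : y ∈ Vim n N E) :
    RRel n N E (Vinv n N E) (ww N y) := by
  have hyy : ∀ j ≤ n, yy N y j ∈ Vim n N E := by
    intro j
    cases j with
    | zero => intro _; exact hy
    | succ j => intro hj; exact Submodule.neg_mem _ (N_mem_Vim (by omega) _)
  have hdown : ∀ j, j + 1 < n → N j (ww N y (j + 1)) - ww N y j = 0 := by
    intro j hj
    have h1 := X_kill r hn hj (hyy j (by omega))
    have e1 : N j (ww N y (j + 1)) = - N j (N (j + 1) (N j (yy N y j))) := by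
      have : ww N y (j + 1) = N (j + 1) (- N j (yy N y j)) := rfl
      rw [this, map_neg, map_neg]
    have e2 : N j (ww N y (j + 1)) - ww N y j =
        - (N j (yy N y j) + N j (N (j + 1) (N j (yy N y j)))) := by
      rw [e1]
      have : ww N y j = N j (yy N y j) := rfl
      rw [this]
      abel
    rw [e2, h1, neg_zero]
  have hfar : ∀ i < n, ∀ j < n, i ≠ j + 1 → j ≠ i + 1 → N i (ww N y j) = 0 := by
    intro i hi j hj h1 h2
    rcases lt_trichotomy i j with h3 | h3 | h3
    · exact r.far' i j (by omega) hj _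
    · subst h3; exact r.sq i hi _
    · exact r.far j i (by omega) hi _
  have hEfar : ∀ j < n, j ≠ 3 → E (ww N y j) = 0 := fun j hj h3 => r.farE j hj h3 _
  refine ⟨?_, ?_, ?_, ?_, ?_⟩
  · intro j _
    rw [ww_succ, neg_add_cancel]
    exact Submodule.zero_mem _
  · intro j hj
    rw [hdown j hj]
    exact Submodule.zero_mem _
  · intro i hi j hj h1 h2
    rw [hfar i hi j hj h1 h2]
    exact Submodule.zero_mem _
  · rw [mem_Vinv]
    refine ⟨?_, ?_⟩
    · intro i hi
      rw [map_sub, map_add]
      by_cases h1 : i = 1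
      · subst h1
        rw [r.farE' 1 hi (by omega), ww_succ (N := N) y 0]
        have h2 := hdown 1 (by omega)
        have e1 : (0 : V) - (- ww N y (0 + 1) + N 1 (ww N y 2)) =
          - (N 1 (ww N y 2) - ww N y 1) := by
          rw [zero_add]; abel
        rw [e1, h2, neg_zero]
      · by_cases h3 : i = 3
        · subst h3
          rw [ww_succ (N := N) y 2, hfar 3 hi 0 (by omega) (by omega) (by omega)]
          have h2 := XE_kill r hn (hyy 3 (by omega))
          have e1 : N 3 (E (ww N y 3)) - (0 + - ww N y (2 + 1)) =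
            N 3 (yy N y 3) + N 3 (E (N 3 (yy N y 3))) := by
            have : ww N y 3 = N 3 (yy N y 3) := rfl
            rw [show 2 + 1 = 3 from rfl, this]
            abel
          rw [e1, h2]
        · rw [r.farE' i hi h3, hfar i hi 0 (by omega) (by omega) (by omega),
            hfar i hi 2 (by omega) (by omega) (by omega)]
          simp
    · rw [map_sub, map_add, r.sqE, hEfar 0 (by omega) (by omega), hEfar 2 (by omega) (by omega)]
      simp
  · intro j hj h3
    rw [hEfar j hj h3]
    exact Submodule.zero_mem _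

end tor

section us
variable {K V : Type*} [CommRing K] [AddCommGroup V] [Module K V]

/-- the vectors of a window -/
def vc (P w0 w1 w2 w3 w4 w5 w6 z : V) (c7 c0 c1 c2 c3 c4 c5 c6 c8 : ℤ) : V :=
  c0 • P + c1 • w0 + c2 • w1 + c3 • w2 + c4 • w3 + c5 • w4 + c6 • w5 + c7 • w6 + c8 • z

/-- the action of the chain `T` and of `E` on the vectors `w_j` and `z` -/
structure US (n : ℕ) (T : ℕ → Module.End K V) (E : Module.End K V) (w : ℕ → V) (z : V) :
    Prop where
  up : ∀ j, j + 1 < n → T (j + 1) (w j) = w j - w (j + 1)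
  down : ∀ j, j + 1 < n → T j (w (j + 1)) = w (j + 1) + w j
  far : ∀ i < n, ∀ j < n, i ≠ j + 1 → j ≠ i + 1 → T i (w j) = w j
  E3 : E (w 3) = w 3 + (w 0 + w 2 + z)
  Ef : ∀ j < n, j ≠ 3 → E (w j) = w j
  Tz : ∀ j < n, T j z = z
  Ez : E z = z

/-- `B` acts as the twist about `a_m` -/
structure TA (n : ℕ) (w : ℕ → V) (z : V) (m : ℕ) (B : Module.End K V) : Prop where
  val : B (w (2 * m + 1)) = w (2 * m + 1) + (uu w m + (m : ℤ) • z)
  far : ∀ j < n, j ≠ 2 * m + 1 → B (w j) = w j
  z : B z = z

variable {n : ℕ} {T : ℕ → Module.End K V} {E : Module.End K V} {w : ℕ → V} {z : V}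

theorem T_uu_odd (u : US n T E w z) {m : ℕ} (hm : 2 * m + 1 < n) :
    T (2 * m + 1) (uu w m) = uu w m - w (2 * m + 1) := by
  have key : ∀ k, k < m → T (2 * m + 1) (uu w k) = uu w k := by
    intro k
    induction k with
    | zero => intro hk; exact u.far _ hm 0 (by omega) (by omega) (by omega)
    | succ k ih =>
      intro hk
      show T _ (uu w k + w (2 * k + 2)) = uu w k + w (2 * k + 2)
      rw [map_add, ih (by omega), u.far _ hm _ (by omega) (by omega) (by omega)]
  cases m with
  | zero => exact u.up 0 (by omega)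
  | succ m =>
    show T _ (uu w m + w (2 * m + 2)) = uu w m + w (2 * m + 2) - _
    rw [map_add, key m (by omega), show 2 * (m + 1) + 1 = 2 * m + 2 + 1 by ring,
      u.up (2 * m + 2) (by omega)]
    abel

theorem T_uu_odd' (u : US n T E w z) {m i : ℕ} (hi : 2 * i + 1 < n) (hmi : m < i) :
    T (2 * i + 1) (uu w m) = uu w m := by
  induction m with
  | zero => exact u.far _ hi 0 (by omega) (by omega) (by omega)
  | succ k ih =>
    show T _ (uu w k + w (2 * k + 2)) = uu w k + w (2 * k + 2)
    rw [map_add, ih (by omega), u.far _ hi _ (by omega) (by omega) (by omega)]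

theorem T_uu_even (u : US n T E w z) {m i : ℕ} (hi : 2 * i < n) (hm : 2 * m < n) :
    T (2 * i) (uu w m) = uu w m := by
  induction m with
  | zero => exact u.far _ hi 0 (by omega) (by omega) (by omega)
  | succ k ih =>
    show T _ (uu w k + w (2 * k + 2)) = uu w k + w (2 * k + 2)
    rw [map_add, ih (by omega), u.far _ hi _ (by omega) (by omega) (by omega)]

theorem TA_uu {m k : ℕ} {B : Module.End K V} (a : TA n w z m B) (hk : 2 * k < n) :
    B (uu w k) = uu w k := by
  induction k with
  | zero => exact a.far 0 (by omega) (by omega)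
  | succ k ih =>
    show B (uu w k + w (2 * k + 2)) = uu w k + w (2 * k + 2)
    rw [map_add, ih (by omega), a.far _ (by omega) (by omega)]

/-- the step: the twist about `a_{p+2}` -/
theorem TA_step (u : US n T E w z) {p : ℕ} (hp : 2 * p + 5 < n) (hpar : n % 2 = 0)
    {A0 A1 A2 : Module.End K V} (a0 : TA n w z p A0) (a1 : TA n w z (p + 1) A1)
    (hinj : ∀ j < n, Function.Injective (T j)) (hinjA : Function.Injective A1)
    (rel : ∀ v, A0 (T (2 * p + 1) (T (2 * p + 2) (T (2 * p + 3) (A1 (T (2 * p + 4)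
      (T (2 * p + 3) (T (2 * p + 5) (T (2 * p + 4) (T (2 * p + 2) (T (2 * p + 3) (A1
      (T (2 * p + 1) (T (2 * p + 2) (T (2 * p + 3) (T (2 * p + 4)
      (T (2 * p + 5) v)))))))))))))))) =
      T (2 * p + 1) (T (2 * p + 2) (T (2 * p + 3) (A1 (T (2 * p + 4)
      (T (2 * p + 3) (T (2 * p + 5) (T (2 * p + 4) (T (2 * p + 2) (T (2 * p + 3) (A1
      (T (2 * p + 1) (T (2 * p + 2) (T (2 * p + 3) (T (2 * p + 4)
      (T (2 * p + 5) (A2 v)))))))))))))))))  :
    TA n w z (p + 2) A2 := by
  -- it is enough to check the values after the product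
  have key : ∀ v v' : V, A0 (T (2 * p + 1) (T (2 * p + 2) (T (2 * p + 3) (A1 (T (2 * p + 4)
      (T (2 * p + 3) (T (2 * p + 5) (T (2 * p + 4) (T (2 * p + 2) (T (2 * p + 3) (A1
      (T (2 * p + 1) (T (2 * p + 2) (T (2 * p + 3) (T (2 * p + 4)
      (T (2 * p + 5) v)))))))))))))))) =
      T (2 * p + 1) (T (2 * p + 2) (T (2 * p + 3) (A1 (T (2 * p + 4)
      (T (2 * p + 3) (T (2 * p + 5) (T (2 * p + 4) (T (2 * p + 2) (T (2 * p + 3) (A1
      (T (2 * p + 1) (T (2 * p + 2) (T (2 * p + 3) (T (2 * p + 4)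
      (T (2 * p + 5) v'))))))))))))))) → A2 v = v' := by
    intro v v' h
    rw [rel v] at h
    have i1 := hinj (2 * p + 1) (by omega)
    have i2 := hinj (2 * p + 2) (by omega)
    have i3 := hinj (2 * p + 3) (by omega)
    have i4 := hinj (2 * p + 4) (by omega)
    have i5 := hinj (2 * p + 5) (by omega)
    exact i5 (i4 (i3 (i2 (i1 (hinjA (i3 (i2 (i4 (i5 (i3 (i4 (hinjA (i3 (i2 (i1 h)))))))))))))))
  -- a vector fixed by everything
  have fixed : ∀ v : V, T (2 * p + 1) v = v → T (2 * p + 2) v = v → T (2 * p + 3) v = v →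
      T (2 * p + 4) v = v → T (2 * p + 5) v = v → A0 v = v → A1 v = v → A2 v = v := by
    intro v h1 h2 h3 h4 h5 h6 h7
    apply key
    simp only [h1, h2, h3, h4, h5, h6, h7]
  -- the window
  have tP1 : T (2 * p + 1) (uu w p) = uu w p - w (2 * p + 1) := T_uu_odd u (by omega)
  have tP2 : T (2 * p + 2) (uu w p) = uu w p := by
    have := T_uu_even u (m := p) (i := p + 1) (by omega) (by omega)
    exact this
  have tP3 : T (2 * p + 3) (uu w p) = uu w p := by
    have := T_uu_odd' u (m := p) (i := p + 1) (by omega) (by omega)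
    exact this
  have tP4 : T (2 * p + 4) (uu w p) = uu w p := by
    have := T_uu_even u (m := p) (i := p + 2) (by omega) (by omega)
    exact this
  have tP5 : T (2 * p + 5) (uu w p) = uu w p := by
    have := T_uu_odd' u (m := p) (i := p + 2) (by omega) (by omega)
    exact this
  have aP0 : A0 (uu w p) = uu w p := TA_uu a0 (by omega)
  have aP1 : A1 (uu w p) = uu w p := TA_uu a1 (by omega)
  have z1 := u.Tz (2 * p + 1) (by omega)
  have z2 := u.Tz (2 * p + 2) (by omega)
  have z3 := u.Tz (2 * p + 3) (by omega)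
  have z4 := u.Tz (2 * p + 4) (by omega)
  have z5 := u.Tz (2 * p + 5) (by omega)
  have az0 := a0.z
  have az1 := a1.z
  -- abbreviations
  obtain ⟨P, hP⟩ : ∃ P : V, P = uu w p + (p : ℤ) • z := ⟨_, rfl⟩
  have q1 : T (2 * p + 1) P = P - w (2 * p + 1) := by
    rw [hP, map_add, map_zsmul, tP1, z1]; abel
  have q2 : T (2 * p + 2) P = P := by rw [hP, map_add, map_zsmul, tP2, z2]
  have q3 : T (2 * p + 3) P = P := by rw [hP, map_add, map_zsmul, tP3, z3]
  have q4 : T (2 * p + 4) P = P := by rw [hP, map_add, map_zsmul, tP4, z4]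
  have q5 : T (2 * p + 5) P = P := by rw [hP, map_add, map_zsmul, tP5, z5]
  have r0 : A0 P = P := by rw [hP, map_add, map_zsmul, aP0, az0]
  have r1 : A1 P = P := by rw [hP, map_add, map_zsmul, aP1, az1]
  have m0 : A0 (w (2 * p + 1)) = w (2 * p + 1) + P := by rw [hP]; exact a0.val
  have m1 : A1 (w (2 * p + 3)) = w (2 * p + 3) + (P + w (2 * p + 2) + z) := by
    have h1 := a1.val
    have h2 : uu w (p + 1) = uu w p + w (2 * p + 2) := rfl
    rw [h2, show 2 * (p + 1) + 1 = 2 * p + 3 by ring] at h1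
    rw [h1, hP]
    push_cast
    module
  -- the chain
  have f := u.far
  have b0_0 : T (2 * p + 1) (w (2 * p)) = w (2 * p) - w (2 * p + 1) := u.up _ (by omega)
  have b0_1 : T (2 * p + 1) (w (2 * p + 1)) = w (2 * p + 1) :=
    f _ (by omega) _ (by omega) (by omega) (by omega)
  have b0_2 : T (2 * p + 1) (w (2 * p + 2)) = w (2 * p + 2) + w (2 * p + 1) :=
    u.down _ (by omega)
  have b0_3 : T (2 * p + 1) (w (2 * p + 3)) = w (2 * p + 3) :=
    f _ (by omega) _ (by omega) (by omega) (by omega)
  have b0_4 : T (2 * p + 1) (w (2 * p + 4)) = w (2 * p + 4) :=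
    f _ (by omega) _ (by omega) (by omega) (by omega)
  have b0_5 : T (2 * p + 1) (w (2 * p + 5)) = w (2 * p + 5) :=
    f _ (by omega) _ (by omega) (by omega) (by omega)
  have c1_0 : T (2 * p + 2) (w (2 * p)) = w (2 * p) :=
    f _ (by omega) _ (by omega) (by omega) (by omega)
  have c1_1 : T (2 * p + 2) (w (2 * p + 1)) = w (2 * p + 1) - w (2 * p + 2) :=
    u.up _ (by omega)
  have c1_2 : T (2 * p + 2) (w (2 * p + 2)) = w (2 * p + 2) :=
    f _ (by omega) _ (by omega) (by omega) (by omega)
  have c1_3 : T (2 * p + 2) (w (2 * p + 3)) = w (2 * p + 3) + w (2 * p + 2) :=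
    u.down _ (by omega)
  have c1_4 : T (2 * p + 2) (w (2 * p + 4)) = w (2 * p + 4) :=
    f _ (by omega) _ (by omega) (by omega) (by omega)
  have c1_5 : T (2 * p + 2) (w (2 * p + 5)) = w (2 * p + 5) :=
    f _ (by omega) _ (by omega) (by omega) (by omega)
  have b1_0 : T (2 * p + 3) (w (2 * p)) = w (2 * p) :=
    f _ (by omega) _ (by omega) (by omega) (by omega)
  have b1_1 : T (2 * p + 3) (w (2 * p + 1)) = w (2 * p + 1) :=
    f _ (by omega) _ (by omega) (by omega) (by omega)
  have b1_2 : T (2 * p + 3) (w (2 * p + 2)) = w (2 * p + 2) - w (2 * p + 3) :=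
    u.up _ (by omega)
  have b1_3 : T (2 * p + 3) (w (2 * p + 3)) = w (2 * p + 3) :=
    f _ (by omega) _ (by omega) (by omega) (by omega)
  have b1_4 : T (2 * p + 3) (w (2 * p + 4)) = w (2 * p + 4) + w (2 * p + 3) :=
    u.down _ (by omega)
  have b1_5 : T (2 * p + 3) (w (2 * p + 5)) = w (2 * p + 5) :=
    f _ (by omega) _ (by omega) (by omega) (by omega)
  have c2_0 : T (2 * p + 4) (w (2 * p)) = w (2 * p) :=
    f _ (by omega) _ (by omega) (by omega) (by omega)
  have c2_1 : T (2 * p + 4) (w (2 * p + 1)) = w (2 * p + 1) :=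
    f _ (by omega) _ (by omega) (by omega) (by omega)
  have c2_2 : T (2 * p + 4) (w (2 * p + 2)) = w (2 * p + 2) :=
    f _ (by omega) _ (by omega) (by omega) (by omega)
  have c2_3 : T (2 * p + 4) (w (2 * p + 3)) = w (2 * p + 3) - w (2 * p + 4) :=
    u.up _ (by omega)
  have c2_4 : T (2 * p + 4) (w (2 * p + 4)) = w (2 * p + 4) :=
    f _ (by omega) _ (by omega) (by omega) (by omega)
  have c2_5 : T (2 * p + 4) (w (2 * p + 5)) = w (2 * p + 5) + w (2 * p + 4) :=
    u.down _ (by omega)
  have b2_0 : T (2 * p + 5) (w (2 * p)) = w (2 * p) :=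
    f _ (by omega) _ (by omega) (by omega) (by omega)
  have b2_1 : T (2 * p + 5) (w (2 * p + 1)) = w (2 * p + 1) :=
    f _ (by omega) _ (by omega) (by omega) (by omega)
  have b2_2 : T (2 * p + 5) (w (2 * p + 2)) = w (2 * p + 2) :=
    f _ (by omega) _ (by omega) (by omega) (by omega)
  have b2_3 : T (2 * p + 5) (w (2 * p + 3)) = w (2 * p + 3) :=
    f _ (by omega) _ (by omega) (by omega) (by omega)
  have b2_4 : T (2 * p + 5) (w (2 * p + 4)) = w (2 * p + 4) - w (2 * p + 5) :=
    u.up _ (by omega)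
  have b2_5 : T (2 * p + 5) (w (2 * p + 5)) = w (2 * p + 5) :=
    f _ (by omega) _ (by omega) (by omega) (by omega)
  have a0_0 : A0 (w (2 * p)) = w (2 * p) := a0.far _ (by omega) (by omega)
  have a0_2 : A0 (w (2 * p + 2)) = w (2 * p + 2) := a0.far _ (by omega) (by omega)
  have a0_3 : A0 (w (2 * p + 3)) = w (2 * p + 3) := a0.far _ (by omega) (by omega)
  have a0_4 : A0 (w (2 * p + 4)) = w (2 * p + 4) := a0.far _ (by omega) (by omega)
  have a0_5 : A0 (w (2 * p + 5)) = w (2 * p + 5) := a0.far _ (by omega) (by omega)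
  have a1_0 : A1 (w (2 * p)) = w (2 * p) := a1.far _ (by omega) (by omega)
  have a1_1 : A1 (w (2 * p + 1)) = w (2 * p + 1) := a1.far _ (by omega) (by omega)
  have a1_2 : A1 (w (2 * p + 2)) = w (2 * p + 2) := a1.far _ (by omega) (by omega)
  have a1_4 : A1 (w (2 * p + 4)) = w (2 * p + 4) := a1.far _ (by omega) (by omega)
  have a1_5 : A1 (w (2 * p + 5)) = w (2 * p + 5) := a1.far _ (by omega) (by omega)
  -- the general computation
  have comp : ∀ (w6 : V) (c7 : ℤ), T (2 * p + 1) w6 = w6 → T (2 * p + 2) w6 = w6 →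
      T (2 * p + 3) w6 = w6 → T (2 * p + 4) w6 = w6 →
      c7 • T (2 * p + 5) w6 = c7 • (w6 + w (2 * p + 5)) → A0 w6 = w6 → A1 w6 = w6 →
      ∀ c0 c1 c2 c3 c4 c5 c6 c8 : ℤ, A2 (vc P (w (2 * p)) (w (2 * p + 1)) (w (2 * p + 2))
        (w (2 * p + 3)) (w (2 * p + 4)) (w (2 * p + 5)) w6 z c7 c0 c1 c2 c3 c4 c5 c6 c8) =
        vc P (w (2 * p)) (w (2 * p + 1)) (w (2 * p + 2)) (w (2 * p + 3)) (w (2 * p + 4))
          (w (2 * p + 5)) w6 z c7 (c0 + c6) c1 c2 (c3 + c6) c4 (c5 + c6) c6 (c8 + 2 * c6) := by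
    intro w6 c7 s1 s2 s3 s4 s5 s6 s7 c0 c1 c2 c3 c4 c5 c6 c8
    apply key
    apply Pool.Agent.E8helper34.MC.core (fun c0 c1 c2 c3 c4 c5 c6 c8 => vc P (w (2 * p)) (w (2 * p + 1)) (w (2 * p + 2))
        (w (2 * p + 3)) (w (2 * p + 4)) (w (2 * p + 5)) w6 z c7 c0 c1 c2 c3 c4 c5 c6 c8) c7
    · intro c0 c1 c2 c3 c4 c5 c6 c8
      simp only [vc, map_add, map_zsmul, q1, b0_0, b0_1, b0_2, b0_3, b0_4, b0_5, s1, z1]
      module
    · intro c0 c1 c2 c3 c4 c5 c6 c8
      simp only [vc, map_add, map_zsmul, q2, c1_0, c1_1, c1_2, c1_3, c1_4, c1_5, s2, z2]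
      module
    · intro c0 c1 c2 c3 c4 c5 c6 c8
      simp only [vc, map_add, map_zsmul, q3, b1_0, b1_1, b1_2, b1_3, b1_4, b1_5, s3, z3]
      module
    · intro c0 c1 c2 c3 c4 c5 c6 c8
      simp only [vc, map_add, map_zsmul, q4, c2_0, c2_1, c2_2, c2_3, c2_4, c2_5, s4, z4]
      module
    · intro c0 c1 c2 c3 c4 c5 c6 c8
      simp only [vc, map_add, map_zsmul, q5, b2_0, b2_1, b2_2, b2_3, b2_4, b2_5, s5, z5]
      module
    · intro c0 c1 c2 c3 c4 c5 c6 c8
      simp only [vc, map_add, map_zsmul, r0, a0_0, m0, a0_2, a0_3, a0_4, a0_5, s6, az0]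
      module
    · intro c0 c1 c2 c3 c4 c5 c6 c8
      simp only [vc, map_add, map_zsmul, r1, a1_0, a1_1, a1_2, m1, a1_4, a1_5, s7, az1]
      module
  have comp0 := comp 0 0 (map_zero _) (map_zero _) (map_zero _) (map_zero _)
    (by rw [zero_zsmul, zero_zsmul]) (map_zero _) (map_zero _)
  refine ⟨?_, ?_, ?_⟩
  · have h := comp0 0 0 0 0 0 0 1 0
    simp only [vc, zero_zsmul, one_zsmul, zero_add, add_zero, mul_one, smul_zero] at h
    rw [show 2 * (p + 2) + 1 = 2 * p + 5 by ring, h]
    have h2 : uu w (p + 2) = uu w p + w (2 * p + 2) + w (2 * p + 4) := rfl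
    rw [h2, hP]
    push_cast
    module
  · intro j hj hne
    rcases Nat.lt_or_ge j (2 * p) with h1 | h1
    · exact fixed _ (f _ (by omega) _ hj (by omega) (by omega))
        (f _ (by omega) _ hj (by omega) (by omega)) (f _ (by omega) _ hj (by omega) (by omega))
        (f _ (by omega) _ hj (by omega) (by omega)) (f _ (by omega) _ hj (by omega) (by omega))
        (a0.far _ hj (by omega)) (a1.far _ hj (by omega))
    · rcases Nat.lt_or_ge (2 * p + 6) j with h2 | h2
      · exact fixed _ (f _ (by omega) _ hj (by omega) (by omega))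
          (f _ (by omega) _ hj (by omega) (by omega))
          (f _ (by omega) _ hj (by omega) (by omega))
          (f _ (by omega) _ hj (by omega) (by omega))
          (f _ (by omega) _ hj (by omega) (by omega))
          (a0.far _ hj (by omega)) (a1.far _ hj (by omega))
      · obtain ⟨i, rfl⟩ : ∃ i, j = 2 * p + i := ⟨j - 2 * p, by omega⟩
        have hi : i ≤ 6 := by omega
        interval_cases i
        · have h := comp0 0 1 0 0 0 0 0 0
          simpa only [vc, zero_zsmul, one_zsmul, zero_add, add_zero, mul_zero, smul_zero] using h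
        · have h := comp0 0 0 1 0 0 0 0 0
          simpa only [vc, zero_zsmul, one_zsmul, zero_add, add_zero, mul_zero, smul_zero] using h
        · have h := comp0 0 0 0 1 0 0 0 0
          simpa only [vc, zero_zsmul, one_zsmul, zero_add, add_zero, mul_zero, smul_zero] using h
        · have h := comp0 0 0 0 0 1 0 0 0
          simpa only [vc, zero_zsmul, one_zsmul, zero_add, add_zero, mul_zero, smul_zero] using h
        · have h := comp0 0 0 0 0 0 1 0 0
          simpa only [vc, zero_zsmul, one_zsmul, zero_add, add_zero, mul_zero, smul_zero] using h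
        · omega
        · have h := comp (w (2 * p + 6)) 1 (f _ (by omega) _ hj (by omega) (by omega))
            (f _ (by omega) _ hj (by omega) (by omega))
            (f _ (by omega) _ hj (by omega) (by omega))
            (f _ (by omega) _ hj (by omega) (by omega))
            (by rw [one_zsmul, one_zsmul]; exact u.down _ hj)
            (a0.far _ hj (by omega)) (a1.far _ hj (by omega)) 0 0 0 0 0 0 0 0
          simpa only [vc, zero_zsmul, one_zsmul, zero_add, add_zero, mul_zero, smul_zero] using h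
  · exact fixed _ z1 z2 z3 z4 z5 az0 az1

end us

section s1
variable {K V : Type*} [CommRing K] [AddCommGroup V] [Module K V]
  {n : ℕ} {N : ℕ → Module.End K V} {E : Module.End K V}

theorem yy_mem {y : V} (hy : y ∈ Vim n N E) : ∀ j ≤ n, yy N y j ∈ Vim n N E := by
  intro j
  cases j with
  | zero => intro _; exact hy
  | succ j => intro hj; exact Submodule.neg_mem _ (N_mem_Vim (by omega) _)

theorem ww_down (r : NRel n N E) (hn : 6 ≤ n) {y : V} (hy : y ∈ Vim n N E) {j : ℕ}
    (hj : j + 1 < n) : N j (ww N y (j + 1)) = ww N y j := by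
  have h1 := X_kill r hn hj (yy_mem hy j (by omega))
  have e1 : N j (ww N y (j + 1)) = - N j (N (j + 1) (N j (yy N y j))) := by
    have : ww N y (j + 1) = N (j + 1) (- N j (yy N y j)) := rfl
    rw [this, map_neg, map_neg]
  rw [e1]
  exact (eq_neg_of_add_eq_zero_left h1).symm

theorem ww_far (r : NRel n N E) (y : V) {i j : ℕ} (hi : i < n) (hj : j < n) (h1 : i ≠ j + 1)
    (h2 : j ≠ i + 1) : N i (ww N y j) = 0 := by
  rcases lt_trichotomy i j with h3 | h3 | h3
  · exact r.far' i j (by omega) hj _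
  · subst h3; exact r.sq i hi _
  · exact r.far j i (by omega) hi _

theorem ww_Efar (r : NRel n N E) (y : V) {j : ℕ} (hj : j < n) (h3 : j ≠ 3) :
    E (ww N y j) = 0 := r.farE j hj h3 _

/-- the defect -/
def zz (N : ℕ → Module.End K V) (E : Module.End K V) (y : V) : V :=
  E (ww N y 3) - (ww N y 0 + ww N y 2)

theorem zz_mem (r : NRel n N E) (hn : 6 ≤ n) {y : V} (hy : y ∈ Vim n N E) :
    zz N E y ∈ Vinv n N E := (rrel r hn hy).E3

theorem us_of {T : ℕ → Module.End K V} {E : Module.End K V}
    (r : NRel n (fun j => T j - 1) (E - 1)) (hn : 6 ≤ n) {y : V}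
    (hy : y ∈ Vim n (fun j => T j - 1) (E - 1)) :
    US n T E (ww (fun j => T j - 1) y) (zz (fun j => T j - 1) (E - 1) y) where
  up := by
    intro j _
    have h := ww_succ (N := fun j => T j - 1) y j
    have h2 : T (j + 1) (ww (fun j => T j - 1) y j) - ww (fun j => T j - 1) y j =
      - ww (fun j => T j - 1) y (j + 1) := h
    rw [sub_eq_iff_eq_add] at h2
    rw [h2]
    abel
  down := by
    intro j hj
    have h := ww_down r hn hy hj
    have h2 : T j (ww (fun j => T j - 1) y (j + 1)) - ww (fun j => T j - 1) y (j + 1) =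
      ww (fun j => T j - 1) y j := h
    rw [sub_eq_iff_eq_add] at h2
    rw [h2]
    abel
  far := by
    intro i hi j hj h1 h2
    exact sub_eq_zero.1 (ww_far r y hi hj h1 h2)
  E3 := by
    have h : (E - 1) (ww (fun j => T j - 1) y 3) = E (ww (fun j => T j - 1) y 3) -
      ww (fun j => T j - 1) y 3 := rfl
    unfold zz
    rw [h]
    abel
  Ef := fun j hj h3 => sub_eq_zero.1 (ww_Efar r y hj h3)
  Tz := fun j hj => sub_eq_zero.1 ((mem_Vinv.1 (zz_mem r hn hy)).1 j hj)
  Ez := sub_eq_zero.1 (mem_Vinv.1 (zz_mem r hn hy)).2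

theorem rr_bot (r : NRel n N E) (hn : 6 ≤ n) {y : V} (hy : y ∈ Vim n N E)
    (hz : zz N E y = 0) : RRel n N E ⊥ (ww N y) where
  up := by
    intro j _
    rw [ww_succ, neg_add_cancel]
    exact Submodule.zero_mem _
  down := by
    intro j hj
    rw [ww_down r hn hy hj, sub_self]
    exact Submodule.zero_mem _
  far := by
    intro i hi j hj h1 h2
    rw [ww_far r y hi hj h1 h2]
    exact Submodule.zero_mem _
  E3 := by
    have h : E (ww N y 3) - (ww N y 0 + ww N y 2) = 0 := hz
    rw [h]
    exact Submodule.zero_mem _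
  Efar := by
    intro j hj h3
    rw [ww_Efar r y hj h3]
    exact Submodule.zero_mem _

theorem N_Vinv {v : V} (hv : v ∈ Vinv n N E) {j : ℕ} (hj : j < n) : N j v = 0 :=
  (mem_Vinv.1 hv).1 j hj

end s1

end Pool.Agent.E8helper34.QA
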