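import Mathlib
import Pool.Agent.E8helper34.MR.Zz
import Pool.Agent.E8helper34.QA.Rep

set_option autoImplicit false

/-! Quadratic homomorphisms from Humphries' group to arbitrary rings: the kernel. -/

namespace Pool.Agent.E8helper34.QA

open Pool.Agent.H29R2.MG Pool.Agent.TH35.MG Pool.Agent.R352.MG
open Pool.Agent.R665.MGR (HumRel ce sq_all sq_e far_all farE_all comm0)
open Pool.Agent.E8helper34.MR (HG tM aM hM humM HM HM_class HM_vec hc_surj stable_sub
  HG_induction)
open Module Matrix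

section
variable {g : ℕ} {A : Type*} [Ring A]

/-- left multiplication -/
def rL (θ : HG g →* A) : HG g →* Module.End ℤ A where
  toFun x := LinearMap.mulLeft ℤ (θ x)
  map_one' := by
    ext a
    simp
  map_mul' x y := by
    ext a
    simp [mul_assoc]

/-- right multiplication by the inverse -/
def rR (θ : HG g →* A) : HG g →* Module.End ℤ A where
  toFun x := LinearMap.mulRight ℤ (θ x⁻¹)
  map_one' := by
    ext a
    simp
  map_mul' x y := by
    ext a
    simp [mul_assoc]

theorem rL_apply (θ : HG g →* A) (x : HG g) (a : A) : rL θ x a = θ x * a := rfl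

theorem rR_apply (θ : HG g →* A) (x : HG g) (a : A) : rR θ x a = a * θ x⁻¹ := rfl

/-- the hypotheses: products over disjoint curves vanish -/
structure Quad (θ : HG g →* A) : Prop where
  h0 : (θ (tM g 0) - 1) * (θ (tM g 0) - 1) = 0
  h1 : (θ (aM g 1) - 1) * (θ (tM g 0) - 1) = 0

theorem inv_sq {G : Type*} [Group G] (θ : G →* A) {x : G} (h : (θ x - 1) * (θ x - 1) = 0) :
    θ x⁻¹ = 1 - (θ x - 1) := by
  have h1 : θ x⁻¹ * θ x = 1 := by rw [← map_mul, inv_mul_cancel, map_one]
  have h2 : θ x * (1 - (θ x - 1)) = 1 := by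
    have : θ x * (1 - (θ x - 1)) = 1 - (θ x - 1) * (θ x - 1) := by noncomm_ring
    rw [this, h, sub_zero]
  calc θ x⁻¹ = θ x⁻¹ * (θ x * (1 - (θ x - 1))) := by rw [h2, mul_one]
    _ = 1 - (θ x - 1) := by rw [← mul_assoc, h1, one_mul]

variable {θ : HG g →* A}

theorem Quad.left (hg : 7 ≤ g) (q : Quad θ) : NRel (2 * g) (Nf (rL θ)) (Ef (rL θ)) := by
  refine nrel (humM (by omega)) (by omega) (rL θ) ?_ ?_
  · ext a
    show (rL θ (tM g 0) - 1) ((rL θ (tM g 0) - 1) a) = 0
    simp only [LinearMap.sub_apply, Module.End.one_apply, rL_apply, map_sub]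
    have := congrArg (fun z => z * a) q.h0
    simp only [zero_mul] at this
    rw [← this]
    noncomm_ring
  · ext a
    show (rL θ (aM g 1) - 1) ((rL θ (tM g 0) - 1) a) = 0
    simp only [LinearMap.sub_apply, Module.End.one_apply, rL_apply, map_sub]
    have := congrArg (fun z => z * a) q.h1
    simp only [zero_mul] at this
    rw [← this]
    noncomm_ring

theorem Quad.sqt (hg : 7 ≤ g) (q : Quad θ) {j : ℕ} (hj : j < 2 * g) :
    (θ (tM g j) - 1) * (θ (tM g j) - 1) = 0 :=
  sq_all (humM (by omega)) θ q.h0 j hj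

theorem Quad.sqa (hg : 7 ≤ g) (q : Quad θ) : (θ (aM g 1) - 1) * (θ (aM g 1) - 1) = 0 :=
  sq_e (humM (by omega)) (by omega) θ q.h0

theorem Quad.NR (hg : 7 ≤ g) (q : Quad θ) {j : ℕ} (hj : j < 2 * g) (a : A) :
    Nf (rR θ) j a = - (a * (θ (tM g j) - 1)) := by
  unfold Nf
  rw [LinearMap.sub_apply, Module.End.one_apply, rR_apply, inv_sq θ (q.sqt hg hj)]
  noncomm_ring

theorem Quad.ER (hg : 7 ≤ g) (q : Quad θ) (a : A) :
    Ef (rR θ) a = - (a * (θ (aM g 1) - 1)) := by
  unfold Ef
  rw [LinearMap.sub_apply, Module.End.one_apply, rR_apply, inv_sq θ (q.sqa hg)]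
  noncomm_ring

theorem NL (j : ℕ) (a : A) : Nf (rL θ) j a = (θ (tM g j) - 1) * a := by
  unfold Nf
  rw [LinearMap.sub_apply, Module.End.one_apply, rL_apply, sub_mul, one_mul]

theorem EL (a : A) : Ef (rL θ) a = (θ (aM g 1) - 1) * a := by
  unfold Ef
  rw [LinearMap.sub_apply, Module.End.one_apply, rL_apply, sub_mul, one_mul]

theorem Quad.right (hg : 7 ≤ g) (q : Quad θ) : NRel (2 * g) (Nf (rR θ)) (Ef (rR θ)) := by
  refine nrel (humM (by omega)) (by omega) (rR θ) ?_ ?_
  · ext a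
    show Nf (rR θ) 0 (Nf (rR θ) 0 a) = 0
    rw [q.NR hg (by omega), q.NR hg (by omega), neg_mul, neg_neg, mul_assoc, q.h0, mul_zero]
  · ext a
    show Ef (rR θ) (Nf (rR θ) 0 a) = 0
    have h2 := comm0 θ ((humM (g := g) (by omega)).farE 0 (by omega) (by omega)) q.h1
    rw [q.NR hg (by omega), q.ER hg, neg_mul, neg_neg, mul_assoc, h2, mul_zero]

end

end Pool.Agent.E8helper34.QA
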