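import Mathlib
import Pool.Agent.E8helper34.QA.Ring

set_option autoImplicit false

/-! Quadratic homomorphisms from Humphries' group to arbitrary rings: the decomposition of `1`. -/

namespace Pool.Agent.E8helper34.QA

open Pool.Agent.H29R2.MG Pool.Agent.TH35.MG Pool.Agent.R352.MG
open Pool.Agent.R665.MGR (HumRel ce sq_all sq_e far_all farE_all comm0)
open Pool.Agent.E8helper34.MR (HG tM aM hM humM HM HM_class HM_vec hc_surj stable_sub
  HG_induction)
open Module Matrix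

section
variable {g : ℕ} {A : Type*} [Ring A] (θ : HG g →* A)

/-- `t_j - 1` -/
def nj (j : ℕ) : A := θ (tM g j) - 1

/-- `e - 1` -/
def ne : A := θ (aM g 1) - 1

/-- the left family -/
def wL (j : ℕ) : A := ww (Nf (rL θ)) (nj θ 1) j

/-- the right family -/
def wR (j : ℕ) : A := ww (Nf (rR θ)) (nj θ 0 * nj θ 1) j

variable {θ}

theorem VL (v : A) : v ∈ Vinv (2 * g) (Nf (rL θ)) (Ef (rL θ)) ↔
    (∀ j < 2 * g, nj θ j * v = 0) ∧ ne θ * v = 0 := by
  rw [mem_Vinv]
  simp only [NL, EL]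
  rfl

theorem Quad.VR (hg : 7 ≤ g) (q : Quad θ) {v : A}
    (h : v ∈ Vinv (2 * g) (Nf (rR θ)) (Ef (rR θ))) : (∀ j < 2 * g, v * nj θ j = 0) ∧
      v * ne θ = 0 := by
  rw [mem_Vinv] at h
  refine ⟨fun j hj => ?_, ?_⟩
  · have := h.1 j hj
    rw [q.NR hg hj, neg_eq_zero] at this
    exact this
  · have := h.2
    rw [q.ER hg, neg_eq_zero] at this
    exact this

theorem Quad.yL (hg : 7 ≤ g) (_ : Quad θ) : nj θ 1 ∈ Vim (2 * g) (Nf (rL θ)) (Ef (rL θ)) := by
  have h : Nf (rL θ) 1 (1 : A) = nj θ 1 := by rw [NL, mul_one]; rfl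
  rw [← h]
  exact N_mem_Vim (by omega) _

theorem Quad.yR (hg : 7 ≤ g) (q : Quad θ) :
    nj θ 0 * nj θ 1 ∈ Vim (2 * g) (Nf (rR θ)) (Ef (rR θ)) := by
  have h : Nf (rR θ) 1 (-(nj θ 0)) = nj θ 0 * nj θ 1 := by
    rw [q.NR hg (by omega), neg_mul, neg_neg]; rfl
  rw [← h]
  exact N_mem_Vim (by omega) _

theorem wL_zero : wL θ 0 = nj θ 0 * nj θ 1 := by
  show Nf (rL θ) 0 (nj θ 1) = _
  rw [NL]; rfl

theorem wL_succ (j : ℕ) : wL θ (j + 1) = - (nj θ (j + 1) * wL θ j) := by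
  have h := ww_succ (N := Nf (rL θ)) (nj θ 1) j
  rw [NL] at h
  rw [← neg_eq_iff_eq_neg]
  exact h.symm

theorem Quad.wR_zero (hg : 7 ≤ g) (q : Quad θ) :
    wR θ 0 = - (nj θ 0 * nj θ 1 * nj θ 0) := by
  show Nf (rR θ) 0 (nj θ 0 * nj θ 1) = _
  rw [q.NR hg (by omega)]; rfl

theorem Quad.wR_succ (hg : 7 ≤ g) (q : Quad θ) {j : ℕ} (hj : j + 1 < 2 * g) :
    wR θ (j + 1) = wR θ j * nj θ (j + 1) := by
  have h := ww_succ (N := Nf (rR θ)) (nj θ 0 * nj θ 1) j
  rw [q.NR hg hj] at h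
  exact (neg_injective h).symm

/-- the braid defect is invariant -/
theorem Quad.dd (hg : 7 ≤ g) (q : Quad θ) {j : ℕ} (hj : j + 1 < 2 * g) :
    nj θ j + nj θ j * (nj θ (j + 1) * nj θ j) ∈ Vinv (2 * g) (Nf (rL θ)) (Ef (rL θ)) := by
  have h := X_inv (q.left hg) (by omega) hj (1 : A)
  simp only [NL, mul_one] at h
  exact h

theorem Quad.br (hg : 7 ≤ g) (q : Quad θ) {j : ℕ} (hj : j + 1 < 2 * g) :
    nj θ j + nj θ j * (nj θ (j + 1) * nj θ j) =
      nj θ (j + 1) + nj θ (j + 1) * (nj θ j * nj θ (j + 1)) := by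
  have h := (q.left hg).br j hj (1 : A)
  simp only [NL, mul_one] at h
  exact h

theorem Quad.ddE (hg : 7 ≤ g) (q : Quad θ) :
    ne θ + ne θ * (nj θ 3 * ne θ) ∈ Vinv (2 * g) (Nf (rL θ)) (Ef (rL θ)) := by
  have h := XE_inv (q.left hg) (by omega) (1 : A)
  rw [(q.left hg).brE] at h
  simp only [NL, EL, mul_one] at h
  exact h

/-- `w_j w'_j = - n_j` modulo the invariants -/
theorem Quad.prod (hg : 7 ≤ g) (q : Quad θ) : ∀ j < 2 * g,
    ∃ D ∈ Vinv (2 * g) (Nf (rL θ)) (Ef (rL θ)), wL θ j * wR θ j = - nj θ j + D := by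
  intro j
  induction j with
  | zero =>
    intro _
    refine ⟨_, q.dd hg (j := 0) (by omega), ?_⟩
    have h1 := ((VL _).1 (q.dd hg (j := 0) (by omega))).1 1 (by omega)
    have h0 : nj θ 0 * nj θ 0 = 0 := q.sqt hg (by omega)
    rw [wL_zero, q.wR_zero hg]
    rw [show 0 + 1 = 1 from rfl] at *
    generalize nj θ 0 = a at *
    generalize nj θ 1 = b at *
    have h2 : a * (b * (a + a * (b * a))) = 0 := by rw [h1, mul_zero]
    have h3 : a * b * -(a * b * a) = a * (b * a) - a * (b * (a + a * (b * a))) := by noncomm_ring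
    rw [h3, h2]
    noncomm_ring
  | succ j ih =>
    intro hj
    obtain ⟨D, hD, h⟩ := ih (by omega)
    refine ⟨_, q.dd hg hj, ?_⟩
    rw [wL_succ, q.wR_succ hg hj]
    have h1 := ((VL _).1 hD).1 (j + 1) hj
    have h2 := q.br hg hj
    have e : -(nj θ (j + 1) * wL θ j) * (wR θ j * nj θ (j + 1)) =
        - (nj θ (j + 1) * (wL θ j * wR θ j) * nj θ (j + 1)) := by noncomm_ring
    rw [e, h, h2]
    have e2 : nj θ (j + 1) * (-nj θ j + D) = - (nj θ (j + 1) * nj θ j) := by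
      rw [mul_add, h1, add_zero, mul_neg]
    rw [e2]
    noncomm_ring

variable (hd : ∀ a : A, (2 * g - 2) • a = 0 → a = 0)

include hd in
theorem Quad.rrL (hg : 7 ≤ g) (q : Quad θ) :
    RRel (2 * g) (Nf (rL θ)) (Ef (rL θ)) ⊥ (wL θ) :=
  rr_bot (q.left hg) (by omega) (q.yL hg) (zz_zero hg _ (q.left hg) hd (q.yL hg))

include hd in
theorem Quad.rrR (hg : 7 ≤ g) (q : Quad θ) :
    RRel (2 * g) (Nf (rR θ)) (Ef (rR θ)) ⊥ (wR θ) :=
  rr_bot (q.right hg) (by omega) (q.yR hg) (zz_zero hg _ (q.right hg) hd (q.yR hg))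

include hd in
theorem Quad.prodE (hg : 7 ≤ g) (q : Quad θ) :
    ∃ D ∈ Vinv (2 * g) (Nf (rL θ)) (Ef (rL θ)), uu (wL θ) 1 * uu (wR θ) 1 = - ne θ + D := by
  refine ⟨_, q.ddE hg, ?_⟩
  have h1 := (Submodule.mem_bot ℤ).1 (q.rrL hd hg).E3
  have h2 := (Submodule.mem_bot ℤ).1 (q.rrR hd hg).E3
  rw [EL, sub_eq_zero] at h1
  rw [q.ER hg, sub_eq_zero] at h2
  have e1 : uu (wL θ) 1 = ne θ * wL θ 3 := h1.symm
  have e2 : uu (wR θ) 1 = - (wR θ 3 * ne θ) := h2.symm
  obtain ⟨D, hD, h⟩ := q.prod hg 3 (by omega)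
  have h3 := ((VL _).1 hD).2
  rw [e1, e2]
  have e : ne θ * wL θ 3 * -(wR θ 3 * ne θ) = - (ne θ * (wL θ 3 * wR θ 3) * ne θ) := by
    noncomm_ring
  rw [e, h, mul_add, h3, add_zero]
  noncomm_ring

/-- the coordinates -/
def rr (θ : HG g →* A) : Fin g ⊕ Fin g → A :=
  Sum.elim (fun m => ub g (wR θ) (Sum.inr m)) (fun m => - ub g (wR θ) (Sum.inl m))

theorem sf_rr (c : Fin g ⊕ Fin g → ℤ) :
    ∑ k, sf ℤ c k • rr θ k = ∑ k, c k • ub g (wR θ) k := by
  rw [Fintype.sum_sum_type, Fintype.sum_sum_type, add_comm]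
  have e1 : ∑ x : Fin g, sf ℤ c (Sum.inr x) • rr θ (Sum.inr x) =
      ∑ x : Fin g, c (Sum.inl x) • ub g (wR θ) (Sum.inl x) := by
    apply Finset.sum_congr rfl
    intro m _
    simp only [sf, rr, Sum.elim_inr, Int.cast_id]
    rw [neg_smul, smul_neg, neg_neg]
  have e2 : ∑ x : Fin g, sf ℤ c (Sum.inl x) • rr θ (Sum.inl x) =
      ∑ x : Fin g, c (Sum.inr x) • ub g (wR θ) (Sum.inr x) := by
    apply Finset.sum_congr rfl
    intro m _
    simp only [sf, rr, Sum.elim_inl, Int.cast_id]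
  rw [e1, e2]

/-- the idempotent -/
def idem (θ : HG g →* A) : A := ∑ k, ub g (wL θ) k * rr θ k

theorem gen_idem {F F' : Module.End ℤ A} {a : A} (hF : ∀ v, F v = a * v) {x x' : A}
    {c : Fin g ⊕ Fin g → ℤ} (h : GenRel ⊥ (ub g (wL θ)) F x c)
    (h' : GenRel ⊥ (ub g (wR θ)) F' x' c) : a * idem θ = - (x * x') := by
  have h1 : ∀ k, a * ub g (wL θ) k = - (sf ℤ c k • x) := by
    intro k
    have := (Submodule.mem_bot ℤ).1 (h.rel k)
    rw [hF] at this
    exact eq_neg_of_add_eq_zero_left this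
  unfold idem
  rw [Finset.mul_sum]
  have h2 : ∀ k ∈ Finset.univ, a * (ub g (wL θ) k * rr θ k) = - (x * (sf ℤ c k • rr θ k)) := by
    intro k _
    rw [← mul_assoc, h1, neg_mul, smul_mul_assoc, mul_smul_comm]
  rw [Finset.sum_congr rfl h2, Finset.sum_neg_distrib, ← Finset.mul_sum, sf_rr]
  have h3 := h'.val
  simp only [Int.cast_id] at h3
  rw [← h3]

include hd in
/-- the complement is fixed -/
theorem Quad.inv (hg : 7 ≤ g) (q : Quad θ) :
    1 - idem θ ∈ Vinv (2 * g) (Nf (rL θ)) (Ef (rL θ)) := by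
  refine perf hg (q.left hg) ?_ ?_
  · intro j hj
    rw [NL]
    obtain ⟨D, hD, h⟩ := q.prod hg j hj
    have hid : (θ (tM g j) - 1) * idem θ = - (wL θ j * wR θ j) := by
      rcases Nat.even_or_odd' j with ⟨i, rfl | rfl⟩
      · exact gen_idem (NL _) (gen_even (q.rrL hd hg) ⟨i, by omega⟩)
          (gen_even (q.rrR hd hg) ⟨i, by omega⟩)
      · exact gen_idem (NL _) (gen_odd (q.rrL hd hg) ⟨i, by omega⟩)
          (gen_odd (q.rrR hd hg) ⟨i, by omega⟩)
    rw [mul_sub, mul_one, hid, h]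
    have e : θ (tM g j) - 1 - -(-nj θ j + D) = D := by
      show nj θ j - -(-nj θ j + D) = D
      abel
    rw [e]
    exact hD
  · rw [EL]
    obtain ⟨D, hD, h⟩ := q.prodE hd hg
    have hid : (θ (aM g 1) - 1) * idem θ = - (uu (wL θ) 1 * uu (wR θ) 1) :=
      gen_idem EL (gen_e (q.rrL hd hg) ⟨1, by omega⟩ rfl) (gen_e (q.rrR hd hg) ⟨1, by omega⟩ rfl)
    rw [mul_sub, mul_one, hid, h]
    have e : θ (aM g 1) - 1 - -(-ne θ + D) = D := by
      show ne θ - -(-ne θ + D) = D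
      abel
    rw [e]
    exact hD

include hd in
theorem Quad.fix (hg : 7 ≤ g) (q : Quad θ) (x : HG g) : θ x * (1 - idem θ) = 1 - idem θ :=
  fixf (rL θ) (by omega) x _ (q.inv hd hg)

/-- the combination -/
def lam (θ : HG g →* A) (v : Fin g ⊕ Fin g → ℤ) : A := ∑ i, v i • ub g (wL θ) i

theorem lam_add (v w : Fin g ⊕ Fin g → ℤ) : lam θ (v + w) = lam θ v + lam θ w := by
  unfold lam
  rw [← Finset.sum_add_distrib]
  exact Finset.sum_congr rfl fun i _ => by rw [Pi.add_apply, add_smul]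

theorem lam_single (k : Fin g ⊕ Fin g) (n : ℤ) : lam θ (Pi.single k n) = n • ub g (wL θ) k := by
  unfold lam
  rw [Finset.sum_eq_single k]
  · rw [Pi.single_eq_same]
  · intro b _ hb
    rw [Pi.single_eq_of_ne hb, zero_smul]
  · intro h; exact absurd (Finset.mem_univ _) h

include hd in
theorem Quad.act (hg : 7 ≤ g) (q : Quad θ) (x : HG g) (v : Fin g ⊕ Fin g → ℤ) :
    θ x * lam θ v = lam θ (HM g x *ᵥ v) := by
  obtain ⟨y, rfl⟩ := hc_surj v
  obtain ⟨φ, hφ, h⟩ := equiv_all (rL θ) hg (W1 := ⊥) (by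
    intro z v hv
    rw [(Submodule.mem_bot ℤ).1 hv, map_zero]
    exact Submodule.zero_mem _) (q.rrL hd hg) x
  have h1 := (Submodule.mem_bot ℤ).1 (h y)
  rw [sub_eq_zero] at h1
  simp only [Int.cast_id] at h1
  rw [HM_vec hφ]
  exact h1

/-- the relations between the members of the family -/
def SS (θ : HG g →* A) : AddSubgroup (Fin g ⊕ Fin g → ℤ) where
  carrier := {v | lam θ v = 0}
  zero_mem' := by
    show ∑ i, (0 : Fin g ⊕ Fin g → ℤ) i • ub g (wL θ) i = 0
    simp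
  add_mem' := by
    intro a b ha hb
    show lam θ (a + b) = 0
    rw [lam_add, show lam θ a = 0 from ha, show lam θ b = 0 from hb, add_zero]
  neg_mem' := by
    intro a ha
    show lam θ (-a) = 0
    have h := lam_add (θ := θ) (-a) a
    rw [neg_add_cancel, show lam θ a = 0 from ha, add_zero] at h
    rw [← h]
    show ∑ i, (0 : Fin g ⊕ Fin g → ℤ) i • ub g (wL θ) i = 0
    simp

include hd in
/-- the kernel of a quadratic homomorphism -/
theorem Quad.ker (hg : 7 ≤ g) (q : Quad θ) :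
    ∃ m : ℕ, (∀ n : ℕ, (∀ a : A, n • a = 0) → m ∣ n) ∧
      ∀ x, θ x = 1 ↔ ∀ k l, (m : ℤ) ∣ (HM g x - 1) k l := by
  classical
  have hst : ∀ x : HG g, ∀ v ∈ SS θ, HM g x *ᵥ v ∈ SS θ := by
    intro x v hv
    show lam θ (HM g x *ᵥ v) = 0
    rw [← q.act hd hg, show lam θ v = 0 from hv, mul_zero]
  let k0 : Fin g ⊕ Fin g := Sum.inl ⟨0, by omega⟩
  let C : AddSubgroup ℤ := (SS θ).comap (AddMonoidHom.single (fun _ : Fin g ⊕ Fin g => ℤ) k0)
  obtain ⟨a, ha⟩ := Int.subgroup_cyclic C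
  have hCm : ∀ n : ℤ, n ∈ C ↔ (a.natAbs : ℤ) ∣ n := by
    intro n
    rw [ha, AddSubgroup.mem_closure_singleton, Int.natAbs_dvd]
    constructor
    · rintro ⟨k, rfl⟩
      exact Dvd.intro_left k (by simp)
    · rintro ⟨k, rfl⟩
      exact ⟨k, by simp [mul_comm]⟩
  have hC : ∀ n : ℤ, n ∈ C ↔ (Pi.single k0 n : Fin g ⊕ Fin g → ℤ) ∈ SS θ := fun n => Iff.rfl
  have hS : ∀ v : Fin g ⊕ Fin g → ℤ, v ∈ SS θ ↔ ∀ k, (a.natAbs : ℤ) ∣ v k := by
    intro v
    constructor
    · intro hv k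
      rw [← hCm, hC]
      have h := stable_sub (by omega) hst hv k k0
      rwa [← Pi.single_smul, smul_eq_mul, mul_one] at h
    · intro h
      have key : ∀ k, (Pi.single k (v k) : Fin g ⊕ Fin g → ℤ) ∈ SS θ := by
        intro k
        have h1 := (hC _).1 ((hCm _).2 (h k))
        have h2 := stable_sub (by omega) hst h1 k0 k
        rwa [Pi.single_eq_same, ← Pi.single_smul, smul_eq_mul, mul_one] at h2
      rw [← Finset.univ_sum_single v]
      exact (SS θ).sum_mem fun k _ => key k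
  refine ⟨a.natAbs, ?_, ?_⟩
  · intro n hn
    have h1 : ((n : ℤ)) ∈ C := by
      rw [hC]
      show lam θ (Pi.single k0 (n : ℤ)) = 0
      rw [lam_single, natCast_zsmul]
      exact hn _
    exact_mod_cast (hCm _).1 h1
  · intro x
    have hcol : ∀ l, θ x * ub g (wL θ) l = ub g (wL θ) l ↔
        ∀ k, (a.natAbs : ℤ) ∣ (HM g x - 1) k l := by
      intro l
      have h1 := q.act hd hg x (Pi.single l 1)
      rw [lam_single, one_smul] at h1
      have h2 : (fun k => (HM g x - 1) k l) ∈ SS θ ↔ θ x * ub g (wL θ) l = ub g (wL θ) l := by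
        have e : (HM g x *ᵥ Pi.single l 1) = (fun k => (HM g x - 1) k l) + Pi.single l 1 := by
          funext k
          rw [Pi.add_apply, Matrix.sub_apply, Matrix.mulVec_single_one]
          simp only [Matrix.col_apply, Matrix.one_apply]
          by_cases hk : k = l
          · subst hk; simp
          · rw [if_neg hk, Pi.single_eq_of_ne hk]; ring
        rw [h1, e, lam_add, lam_single, one_smul]
        constructor
        · intro h
          rw [show lam θ (fun k => (HM g x - 1) k l) = 0 from h, zero_add]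
        · intro h
          exact add_eq_right.1 h
      rw [← h2, hS]
    constructor
    · intro h k l
      exact (hcol l).1 (by rw [h, one_mul]) k
    · intro h
      have h1 : θ x * idem θ = idem θ := by
        unfold idem
        rw [Finset.mul_sum]
        refine Finset.sum_congr rfl fun l _ => ?_
        rw [← mul_assoc, (hcol l).2 fun k => h k l]
      have h2 := q.fix hd hg x
      have h3 : θ x * 1 = θ x * idem θ + θ x * (1 - idem θ) := by noncomm_ring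
      rw [mul_one] at h3
      rw [h3, h1, h2]
      noncomm_ring

end

end Pool.Agent.E8helper34.QA
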